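import Mathlib

/-!
# MP_484523_pr, Q1: attractors of the deterministic NEC-voting

There are attractors with infinitely many zeroes and infinitely many ones; in fact a generic
configuration (in the sense of Baire category) is an attractor.

Put `ρ (i, j) = max (-i) (-j) (i + j)`, so that the sets `{ρ ≤ k}` are nested triangles with union
`ℤ²`. If the configuration `y` is constant on the layer `{ρ = k + 1}` then the trajectories of two
configurations which agree with `y` outside `{ρ ≤ k}` agree at time `t` outside the shrinking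
triangle `-k ≤ i, -k ≤ j, i + j ≤ k - t`, which is empty for `t > 3 k`. So `y` is an attractor if it
is constant on infinitely many layers.
-/

set_option autoImplicit false

open Filter Topology

namespace Pool.Agent.Results.MP_484523_pr.GenericAttractors

/-- Configurations. -/
abbrev Config : Type := ℤ × ℤ → Bool

/-- The majority value of three bits. -/
def maj (a b c : Bool) : Bool := (a && b) || (b && c) || (a && c)

/-- One step of the NEC-voting: every site takes the majority of its own value and of the values of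
its neighbours in the directions `e₁` and `e₂`. -/
def step (y : Config) : Config := fun s => maj (y s) (y (s + (1, 0))) (y (s + (0, 1)))

/-- The trajectory. The index `n : ℕ` stands for the time `n - 1`. -/
def TR (y : Config) (s : ℤ × ℤ) (n : ℕ) : Bool := step^[n] y s

/-- `y` is an attractor: a finite perturbation of `y` leads to a finite perturbation of the
trajectory. -/
def IsAttractor (y : Config) : Prop :=
  ∀ y' : Config, {s | y' s ≠ y s}.Finite →
    {p : (ℤ × ℤ) × ℕ | TR y' p.1 p.2 ≠ TR y p.1 p.2}.Finite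

/-- The shrinking triangles. -/
def Tri (r : ℤ) (t : ℕ) : Set (ℤ × ℤ) := {p | -r ≤ p.1 ∧ -r ≤ p.2 ∧ p.1 + p.2 ≤ r - t}

theorem background {u : Config} {r : ℤ} {κ : Bool}
    (h : ∀ p ∈ Tri (r + 1) 0, p ∉ Tri r 0 → u p = κ) (t : ℕ) :
    ∀ p ∈ Tri (r + 1) t, p ∉ Tri r t → (step^[t] u) p = κ := by
  induction t with
  | zero => exact h
  | succ t ih =>
    rintro ⟨x, y⟩ hp hq
    rw [Function.iterate_succ_apply']
    simp only [Tri, Set.mem_ofPred_eq] at hp hq ih
    push_cast at hp hq
    have e0 : (⟨x, y⟩ : ℤ × ℤ) + (1, 0) = (x + 1, y) := by ext <;> simp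
    have e1 : (⟨x, y⟩ : ℤ × ℤ) + (0, 1) = (x, y + 1) := by ext <;> simp
    simp only [step, e0, e1]
    have A : ∀ x' y' : ℤ, (-(r + 1) ≤ x' ∧ -(r + 1) ≤ y' ∧ x' + y' ≤ r + 1 - t) →
        ¬ (-r ≤ x' ∧ -r ≤ y' ∧ x' + y' ≤ r - t) → (step^[t] u) (x', y') = κ := fun x' y' h1 h2 =>
      ih (x', y') h1 h2
    by_cases h1 : x + y ≤ r - t - 1
    · by_cases h2 : x < -r
      · rw [A x y (by omega) (by omega), A x (y + 1) (by omega) (by omega)]
        cases κ <;> cases (step^[t] u) (x + 1, y) <;> rfl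
      · rw [A x y (by omega) (by omega), A (x + 1) y (by omega) (by omega)]
        cases κ <;> cases (step^[t] u) (x, y + 1) <;> rfl
    · rw [A (x + 1) y (by omega) (by omega), A x (y + 1) (by omega) (by omega)]
      cases κ <;> cases (step^[t] u) (x, y) <;> rfl

theorem agree {u v : Config} {r : ℤ} {κ : Bool}
    (h : ∀ p ∈ Tri (r + 1) 0, p ∉ Tri r 0 → u p = κ) (huv : ∀ p, p ∉ Tri r 0 → v p = u p) (t : ℕ) :
    ∀ p, p ∉ Tri r t → (step^[t] v) p = (step^[t] u) p := by
  have hv : ∀ p ∈ Tri (r + 1) 0, p ∉ Tri r 0 → v p = κ := fun p h1 h2 => by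
    rw [huv p h2, h p h1 h2]
  induction t with
  | zero => exact huv
  | succ t ih =>
    have bu := background h t
    have bv := background hv t
    rintro ⟨x, y⟩ hq
    rw [Function.iterate_succ_apply', Function.iterate_succ_apply']
    simp only [Tri, Set.mem_ofPred_eq] at hq ih bu bv
    push_cast at hq
    have e0 : (⟨x, y⟩ : ℤ × ℤ) + (1, 0) = (x + 1, y) := by ext <;> simp
    have e1 : (⟨x, y⟩ : ℤ × ℤ) + (0, 1) = (x, y + 1) := by ext <;> simp
    simp only [step, e0, e1]
    have I : ∀ x' y' : ℤ, ¬ (-r ≤ x' ∧ -r ≤ y' ∧ x' + y' ≤ r - t) →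
        (step^[t] v) (x', y') = (step^[t] u) (x', y') := fun x' y' h2 => ih (x', y') h2
    have A : ∀ x' y' : ℤ, (-(r + 1) ≤ x' ∧ -(r + 1) ≤ y' ∧ x' + y' ≤ r + 1 - t) →
        ¬ (-r ≤ x' ∧ -r ≤ y' ∧ x' + y' ≤ r - t) →
        (step^[t] u) (x', y') = κ ∧ (step^[t] v) (x', y') = κ := fun x' y' h1 h2 =>
      ⟨bu (x', y') h1 h2, bv (x', y') h1 h2⟩
    by_cases h0 : ¬ (-r ≤ x ∧ -r ≤ y ∧ x + y ≤ r - t) ∧
        ¬ (-r ≤ x + 1 ∧ -r ≤ y ∧ x + 1 + y ≤ r - t) ∧ ¬ (-r ≤ x ∧ -r ≤ y + 1 ∧ x + (y + 1) ≤ r - t)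
    · rw [I _ _ h0.1, I _ _ h0.2.1, I _ _ h0.2.2]
    · have hB : -(r + 1) ≤ x ∧ -(r + 1) ≤ y ∧ x + y ≤ r - t := by omega
      by_cases h1 : x + y ≤ r - t - 1
      · by_cases h2 : x < -r
        · rw [(A x y (by omega) (by omega)).1, (A x y (by omega) (by omega)).2,
            (A x (y + 1) (by omega) (by omega)).1, (A x (y + 1) (by omega) (by omega)).2]
          cases κ <;> cases (step^[t] u) (x + 1, y) <;> cases (step^[t] v) (x + 1, y) <;> rfl
        · rw [(A x y (by omega) (by omega)).1, (A x y (by omega) (by omega)).2,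
            (A (x + 1) y (by omega) (by omega)).1, (A (x + 1) y (by omega) (by omega)).2]
          cases κ <;> cases (step^[t] u) (x, y + 1) <;> cases (step^[t] v) (x, y + 1) <;> rfl
      · rw [(A (x + 1) y (by omega) (by omega)).1, (A (x + 1) y (by omega) (by omega)).2,
          (A x (y + 1) (by omega) (by omega)).1, (A x (y + 1) (by omega) (by omega)).2]
        cases κ <;> cases (step^[t] u) (x, y) <;> cases (step^[t] v) (x, y) <;> rfl

/-- `y` is constant on the layer with number `k + 1`. -/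
def GoodAt (y : Config) (k : ℕ) : Prop :=
  ∃ κ : Bool, ∀ p ∈ Tri ((k : ℤ) + 1) 0, p ∉ Tri k 0 → y p = κ

theorem Tri_finite (r : ℤ) : (Tri r 0).Finite := by
  refine ((Set.finite_Icc (-r) (2 * r)).prod (Set.finite_Icc (-r) (2 * r))).subset ?_
  rintro ⟨x, y⟩ hp
  simp only [Tri, Set.mem_ofPred_eq] at hp
  simp only [Set.mem_prod, Set.mem_Icc]
  push_cast at hp
  omega

theorem finite_sub {D : Set (ℤ × ℤ)} (hD : D.Finite) : ∃ n : ℕ, ∀ k : ℕ, n ≤ k → D ⊆ Tri k 0 := by
  obtain ⟨n, hn⟩ := (hD.image fun p : ℤ × ℤ => (p.1.natAbs + p.2.natAbs : ℕ)).bddAbove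
  refine ⟨n, fun k hk p hp => ?_⟩
  have h1 : p.1.natAbs + p.2.natAbs ≤ n := hn ⟨p, hp, rfl⟩
  simp only [Tri, Set.mem_ofPred_eq]
  push_cast
  omega

theorem attractor_of_good {y : Config} (h : ∀ n : ℕ, ∃ k, n ≤ k ∧ GoodAt y k) :
    IsAttractor y := by
  intro y' hfin
  obtain ⟨n, hn⟩ := finite_sub hfin
  obtain ⟨k, hk, κ, hκ⟩ := h n
  have hag : ∀ p, p ∉ Tri k 0 → y' p = y p := by
    intro p hp
    by_contra hc
    exact hp (hn k hk hc)
  refine ((Tri_finite k).prod (Set.finite_Iic (3 * k))).subset ?_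
  rintro ⟨p, t⟩ hp
  have h1 : p ∈ Tri k t := by
    by_contra hc
    exact hp (agree hκ hag t p hc)
  simp only [Tri, Set.mem_ofPred_eq] at h1
  simp only [Set.mem_prod, Tri, Set.mem_ofPred_eq, Set.mem_Iic]
  push_cast
  omega

/-- The configuration which is constant on all layers, with the colours `c`. -/
def layered (c : ℕ → Bool) : Config := fun p => c (max (max (-p.1) (-p.2)) (p.1 + p.2)).toNat

theorem layered_eq (c : ℕ → Bool) (k : ℕ) (p : ℤ × ℤ) (h1 : p ∈ Tri ((k : ℤ) + 1) 0)
    (h2 : p ∉ Tri k 0) : layered c p = c (k + 1) := by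
  simp only [Tri, Set.mem_ofPred_eq] at h1 h2
  push_cast at h1 h2
  unfold layered
  congr 1
  omega

theorem layered_good (c : ℕ → Bool) (k : ℕ) : GoodAt (layered c) k :=
  ⟨c (k + 1), fun p h1 h2 => layered_eq c k p h1 h2⟩

/-- The trajectory of a layered configuration. -/
theorem TR_layered (c : ℕ → Bool) (x y : ℤ) (t : ℕ) :
    TR (layered c) (x, y) t = c (max (max (-x) (-y)) (x + y + t)).toNat := by
  rcases Nat.eq_zero_or_pos t with h0 | h0
  · subst h0
    simp [TR, layered]
  · obtain ⟨k, hk⟩ : ∃ k : ℕ, max (max (-x) (-y)) (x + y + t) = k + 1 := by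
      refine ⟨(max (max (-x) (-y)) (x + y + t) - 1).toNat, ?_⟩
      omega
    rw [hk]
    have h1 := background (u := layered c) (r := k) (κ := c (k + 1))
      (fun p h1 h2 => layered_eq c k p h1 h2) t (x, y) (by
        simp only [Tri, Set.mem_ofPred_eq]
        omega) (by
        simp only [Tri, Set.mem_ofPred_eq]
        omega)
    rw [TR, h1]
    congr 1

theorem isOpen_goodAt (k : ℕ) : IsOpen {y : Config | GoodAt y k} := by
  have h : {y : Config | GoodAt y k} =
      ⋃ κ : Bool, ⋂ p ∈ Tri ((k : ℤ) + 1) 0 \ Tri k 0, {y : Config | y p = κ} := by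
    ext y
    simp only [GoodAt, Set.mem_ofPred_eq, Set.mem_iUnion, Set.mem_iInter, Set.mem_sdiff]
    exact ⟨fun ⟨κ, h⟩ => ⟨κ, fun p hp => h p hp.1 hp.2⟩, fun ⟨κ, h⟩ => ⟨κ, fun p h1 h2 => h p ⟨h1, h2⟩⟩⟩
  rw [h]
  refine isOpen_iUnion fun κ => Set.Finite.isOpen_biInter ((Tri_finite _).subset Set.sdiff_subset) ?_
  intro p _
  have h1 : IsOpen ((fun y : Config => y p) ⁻¹' {κ}) :=
    (isOpen_discrete ({κ} : Set Bool)).preimage (continuous_apply p)
  exact h1

theorem dense_good (n : ℕ) : Dense (⋃ k ∈ Set.Ici n, {y : Config | GoodAt y k}) := by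
  classical
  rw [dense_iff_inter_open]
  rintro U hU ⟨y0, hy0⟩
  obtain ⟨I, w, hw, hI⟩ := isOpen_pi_iff.1 hU y0 hy0
  obtain ⟨m, hm⟩ := finite_sub I.finite_toSet
  refine ⟨fun p => if p ∈ Tri ((max m n : ℕ) : ℤ) 0 then y0 p else false, hI ?_, ?_⟩
  · intro p hp
    have : p ∈ Tri ((max m n : ℕ) : ℤ) 0 := hm _ (le_max_left _ _) hp
    simp only [if_pos this]
    exact (hw p hp).2
  · simp only [Set.mem_iUnion]
    refine ⟨max m n, Set.mem_Ici.2 (le_max_right _ _), false, fun p _ h2 => ?_⟩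
    simp only [if_neg h2]

/-- There is an attractor of the NEC-voting with infinitely many ones and infinitely many zeroes,
such that, moreover, every site changes its value infinitely often. A generic configuration is an
attractor: the attractors form a residual set. For every sequence `c` of colours the configuration
`c (max (-i) (-j) (i + j))` is an attractor, with the trajectory
`c (max (-i) (-j) (i + j + t))`. There are continuum many bunches which are attractors. -/
theorem result :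
    (∃ y : Config, IsAttractor y ∧ {s | y s = true}.Infinite ∧ {s | y s = false}.Infinite ∧
      ∀ (s : ℤ × ℤ) (n : ℕ), (∃ t, n ≤ t ∧ TR y s t = true) ∧ ∃ t, n ≤ t ∧ TR y s t = false) ∧
    {y : Config | IsAttractor y} ∈ residual Config ∧
    (∀ c : ℕ → Bool, IsAttractor (fun s => c (max (max (-s.1) (-s.2)) (s.1 + s.2)).toNat) ∧
      ∀ (i j : ℤ) (t : ℕ), TR (fun s => c (max (max (-s.1) (-s.2)) (s.1 + s.2)).toNat) (i, j) t =
        c (max (max (-i) (-j)) (i + j + t)).toNat) ∧
    ∃ f : (ℕ → Bool) → Config, (∀ a, IsAttractor (f a)) ∧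
      ∀ a b, a ≠ b → {s | f a s ≠ f b s}.Infinite := by
  have hatt : ∀ c : ℕ → Bool, IsAttractor (layered c) := fun c =>
    attractor_of_good fun n => ⟨n, le_rfl, layered_good c n⟩
  have hinf : ∀ (c : ℕ → Bool) (P : Bool → Prop), (∀ n, ∃ k, n ≤ k ∧ P (c k)) →
      {s | P (layered c s)}.Infinite := by
    intro c P hP hfin
    obtain ⟨n, hn⟩ := finite_sub hfin
    obtain ⟨k, hk, hk'⟩ := hP (n + 1)
    have h1 : ((k : ℤ), (0 : ℤ)) ∈ {s | P (layered c s)} := by
      show P (layered c ((k : ℤ), (0 : ℤ)))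
      unfold layered
      have : (max (max (-(k : ℤ)) (-(0 : ℤ))) ((k : ℤ) + 0)).toNat = k := by omega
      simpa only [this] using hk'
    have h2 := hn n le_rfl h1
    simp only [Tri, Set.mem_ofPred_eq] at h2
    push_cast at h2
    omega
  refine ⟨⟨layered fun k => decide (Even k), hatt _, ?_, ?_, ?_⟩, ?_, fun c =>
    ⟨hatt c, fun i j t => TR_layered c i j t⟩, ?_⟩
  · refine hinf _ (fun b => b = true) fun n => ⟨2 * n, by omega, ?_⟩
    simp
  · refine hinf _ (fun b => b = false) fun n => ⟨2 * n + 1, by omega, ?_⟩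
    simp
  · rintro ⟨x, y⟩ n
    constructor
    · refine ⟨(2 * (n + x.natAbs + y.natAbs) - x - y : ℤ).toNat, by omega, ?_⟩
      rw [TR_layered]
      have : (max (max (-x) (-y)) (x + y + ((2 * (n + x.natAbs + y.natAbs) - x - y : ℤ).toNat : ℕ))
        ).toNat = 2 * (n + x.natAbs + y.natAbs) := by omega
      rw [this]
      simp
    · refine ⟨(2 * (n + x.natAbs + y.natAbs) + 1 - x - y : ℤ).toNat, by omega, ?_⟩
      rw [TR_layered]
      have : (max (max (-x) (-y)) (x + y + ((2 * (n + x.natAbs + y.natAbs) + 1 - x - y : ℤ).toNat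
        : ℕ))).toNat = 2 * (n + x.natAbs + y.natAbs) + 1 := by omega
      rw [this]
      simp
  · have h1 : (⋂ n : ℕ, ⋃ k ∈ Set.Ici n, {y : Config | GoodAt y k}) ∈ residual Config := by
      refine countable_iInter_mem.2 fun n => residual_of_dense_open ?_ (dense_good n)
      exact isOpen_biUnion fun k _ => isOpen_goodAt k
    refine mem_of_superset h1 fun y hy => attractor_of_good fun n => ?_
    have h2 := Set.mem_iInter.1 hy n
    simp only [Set.mem_iUnion] at h2
    obtain ⟨k, hk, hg⟩ := h2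
    exact ⟨k, hk, hg⟩
  · refine ⟨fun a => layered fun k => a k.unpair.1, fun a => hatt _, fun a b hab hfin => ?_⟩
    obtain ⟨m, hm⟩ := Function.ne_iff.1 hab
    obtain ⟨n, hn⟩ := finite_sub hfin
    have hk : n + 1 ≤ Nat.pair m (n + 1) := Nat.right_le_pair _ _
    set k := Nat.pair m (n + 1) with hkdef
    have h1 : ((k : ℤ), (0 : ℤ)) ∈ {s | (layered fun k => a k.unpair.1) s ≠
        (layered fun k => b k.unpair.1) s} := by
      show (layered fun k => a k.unpair.1) ((k : ℤ), (0 : ℤ)) ≠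
        (layered fun k => b k.unpair.1) ((k : ℤ), (0 : ℤ))
      unfold layered
      have h2 : (max (max (-(k : ℤ)) (-(0 : ℤ))) ((k : ℤ) + 0)).toNat = k := by omega
      simp only [h2]
      rw [hkdef, Nat.unpair_pair]
      exact hm
    have h2 := hn n le_rfl h1
    simp only [Tri, Set.mem_ofPred_eq] at h2
    push_cast at h2
    omega

end Pool.Agent.Results.MP_484523_pr.GenericAttractors
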