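import Mathlib

set_option autoImplicit false

/-!
# Attractors of deterministic NEC-voting

Sites are the points of `ℤ × ℤ`; a configuration is a map `ℤ × ℤ → Bool`. The trajectory of a
configuration is indexed by the natural number `n = t + 1` where `t ∈ {-1, 0, 1, ...}` is the time.
-/

namespace Pool.Agent.Results.MP_484523_pr.Islands

/-- The value held by at least two of the three bits. -/
def maj (a b c : Bool) : Bool := (a && b) || (b && c) || (a && c)

/-- Configurations. -/
abbrev Conf : Type := ℤ × ℤ → Bool

/-- The trajectory of NEC-voting: `TR y n s` is the state of the site `s` at time `n - 1`. -/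
def TR (y : Conf) : ℕ → Conf
  | 0 => y
  | n + 1 => fun s => maj (TR y n s) (TR y n (s.1 + 1, s.2)) (TR y n (s.1, s.2 + 1))

/-- Two configurations are finite perturbations of each other. -/
def FinPert (y y' : Conf) : Prop := {s | y s ≠ y' s}.Finite

/-- The trajectories of two configurations are finite perturbations of each other: they differ at
only finitely many space-time points. -/
def TrajFinPert (y y' : Conf) : Prop :=
  {q : (ℤ × ℤ) × ℕ | TR y q.2 q.1 ≠ TR y' q.2 q.1}.Finite

/-- `y` is an attractor. -/
def IsAttractor (y : Conf) : Prop := ∀ y', FinPert y y' → TrajFinPert y' y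

theorem finPert_refl (y : Conf) : FinPert y y := by
  unfold FinPert
  simp

theorem finPert_symm {y y' : Conf} (h : FinPert y y') : FinPert y' y := by
  refine Set.Finite.subset h fun s hs => ?_
  simp only [Set.mem_ofPred_eq] at hs ⊢
  exact fun e => hs e.symm

theorem finPert_trans {y y' y'' : Conf} (h : FinPert y y') (h' : FinPert y' y'') :
    FinPert y y'' := by
  refine Set.Finite.subset (h.union h') fun s hs => ?_
  simp only [Set.mem_ofPred_eq, Set.mem_union] at hs ⊢
  by_contra hc
  push Not at hc
  exact hs (hc.1.trans hc.2)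

/-- The relation of being finite perturbations of each other. -/
def finSetoid : Setoid Conf :=
  ⟨FinPert, finPert_refl, finPert_symm, finPert_trans⟩

/-- A bunch is an equivalence class of configurations. -/
abbrev Bunch : Type := Quotient finSetoid

/-- The bunch of a configuration. -/
def bunch (y : Conf) : Bunch := Quotient.mk finSetoid y

/-- A bunch is an attractor if all of its elements are attractors. -/
def BunchIsAttractor (B : Bunch) : Prop := ∀ y, bunch y = B → IsAttractor y

theorem maj_true {a b c : Bool} (h : maj a b c = true) : b = true ∨ c = true := by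
  revert h; cases a <;> cases b <;> cases c <;> decide

theorem maj_false_left {a c : Bool} (b : Bool) (ha : a = false) (hc : c = false) :
    maj a b c = false := by
  subst ha; subst hc; cases b <;> decide

theorem maj_false_right {a b : Bool} (c : Bool) (ha : a = false) (hb : b = false) :
    maj a b c = false := by
  subst ha; subst hb; cases c <;> decide

/-- Empty half-planes `x < a` stay empty. -/
theorem TR_left {y : Conf} {a : ℤ} (h : ∀ x z, x < a → y (x, z) = false) (n : ℕ) :
    ∀ x z, x < a → TR y n (x, z) = false := by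
  induction n with
  | zero => exact h
  | succ n ih =>
    intro x z hx
    exact maj_false_left _ (ih x z hx) (ih x (z + 1) hx)

/-- Empty half-planes `z < b` stay empty. -/
theorem TR_below {y : Conf} {b : ℤ} (h : ∀ x z, z < b → y (x, z) = false) (n : ℕ) :
    ∀ x z, z < b → TR y n (x, z) = false := by
  induction n with
  | zero => exact h
  | succ n ih =>
    intro x z hx
    exact maj_false_right _ (ih x z hx) (ih (x + 1) z hx)

/-- Empty columns stay empty. -/
theorem TR_column {y : Conf} {X : ℤ} (h : ∀ z, y (X, z) = false) (n : ℕ) :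
    ∀ z, TR y n (X, z) = false := by
  induction n with
  | zero => exact h
  | succ n ih =>
    intro z
    exact maj_false_left _ (ih z) (ih (z + 1))

/-- To the left of an empty column the ones move downwards with unit speed. -/
theorem TR_bound {y : Conf} {X c : ℤ} (h : ∀ z, y (X, z) = false)
    (hc : ∀ x z, x ≤ X → y (x, z) = true → x + z ≤ c) (n : ℕ) :
    ∀ x z, x ≤ X → TR y n (x, z) = true → x + z ≤ c - n := by
  induction n with
  | zero =>
    intro x z hx ht
    have := hc x z hx ht
    push_cast
    omega
  | succ n ih =>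
    intro x z hx ht
    have hxX : x ≠ X := by
      rintro rfl
      rw [TR_column h] at ht
      exact absurd ht (by decide)
    rcases maj_true ht with h1 | h1
    · have := ih (x + 1) z (by omega) h1
      push_cast at *
      omega
    · have := ih x (z + 1) hx h1
      push_cast at *
      omega

/-- Differences do not travel to the right or upwards. -/
theorem TR_agree {y y' : Conf} {M : ℤ} (h : ∀ x z, (M < x ∨ M < z) → y (x, z) = y' (x, z)) (n : ℕ) :
    ∀ x z, (M < x ∨ M < z) → TR y n (x, z) = TR y' n (x, z) := by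
  induction n with
  | zero => exact h
  | succ n ih =>
    intro x z hx
    change maj _ _ _ = maj _ _ _
    rw [ih x z hx, ih (x + 1) z (by omega), ih x (z + 1) (by omega)]

/-- The configurations used here: no ones far to the left or far below, arbitrarily far empty
columns, and bounded to the left of every column. -/
structure Good (y : Conf) : Prop where
  quad : ∃ a : ℤ, ∀ x z, (x < a ∨ z < a) → y (x, z) = false
  col : ∀ M : ℤ, ∃ X, M ≤ X ∧ ∀ z, y (X, z) = false
  bdd : ∀ X : ℤ, ∃ c, ∀ x z, x ≤ X → y (x, z) = true → x + z ≤ c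

theorem exists_box {S : Set (ℤ × ℤ)} (hS : S.Finite) :
    ∃ M : ℤ, ∀ s ∈ S, -M ≤ s.1 ∧ s.1 ≤ M ∧ -M ≤ s.2 ∧ s.2 ≤ M := by
  obtain ⟨M1, hM1⟩ := (hS.image fun s : ℤ × ℤ => |s.1|).bddAbove
  obtain ⟨M2, hM2⟩ := (hS.image fun s : ℤ × ℤ => |s.2|).bddAbove
  refine ⟨max M1 M2, fun s hs => ?_⟩
  have h1 : |s.1| ≤ M1 := hM1 ⟨s, hs, rfl⟩
  have h2 : |s.2| ≤ M2 := hM2 ⟨s, hs, rfl⟩
  have h3 := abs_le.1 (h1.trans (le_max_left M1 M2))
  have h4 := abs_le.1 (h2.trans (le_max_right M1 M2))
  exact ⟨h3.1, h3.2, h4.1, h4.2⟩

theorem Good.trajFinPert {y y' : Conf} (hy : Good y) (h : FinPert y y') : TrajFinPert y' y := by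
  obtain ⟨M0, hM0⟩ := exists_box h
  obtain ⟨a, ha⟩ := hy.quad
  obtain ⟨X, hX, hcol⟩ := hy.col (M0 + 1)
  obtain ⟨c, hc⟩ := hy.bdd X
  have hag : ∀ x z, (M0 < x ∨ M0 < z ∨ x < -M0 ∨ z < -M0) → y' (x, z) = y (x, z) := by
    intro x z hxz
    by_contra hne
    have := hM0 (x, z) (fun e => hne e.symm)
    simp only at this
    omega
  -- everything for `y'`
  set b : ℤ := min a (-M0) with hb
  set C : ℤ := max c (2 * M0) with hC
  have hy'1 : ∀ x z, (x < b ∨ z < b) → y' (x, z) = false := by
    intro x z hxz
    rw [hag x z (by omega)]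
    exact ha x z (by omega)
  have hy1 : ∀ x z, (x < b ∨ z < b) → y (x, z) = false := by
    intro x z hxz
    exact ha x z (by omega)
  have hcol' : ∀ z, y' (X, z) = false := by
    intro z
    rw [hag X z (by omega)]
    exact hcol z
  have hc1 : ∀ x z, x ≤ X → y (x, z) = true → x + z ≤ C := by
    intro x z hx h1
    exact (hc x z hx h1).trans (le_max_left _ _)
  have hc' : ∀ x z, x ≤ X → y' (x, z) = true → x + z ≤ C := by
    intro x z hx h1
    by_cases hb' : M0 < x ∨ M0 < z ∨ x < -M0 ∨ z < -M0
    · rw [hag x z hb'] at h1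
      exact hc1 x z hx h1
    · push Not at hb'
      have := le_max_right c (2 * M0)
      omega
  refine Set.Finite.subset (s := (Set.Icc b M0 ×ˢ Set.Icc b M0) ×ˢ Set.Iic (C - 2 * b).toNat)
    ((Set.toFinite _).prod (Set.toFinite _)) ?_
  rintro ⟨⟨x, z⟩, n⟩ hq
  simp only [Set.mem_ofPred_eq] at hq
  have h1 : x ≤ M0 ∧ z ≤ M0 := by
    by_contra hcon
    apply hq
    exact TR_agree (M := M0) (fun x z hxz => hag x z (by omega)) n x z (by omega)
  have h2 : b ≤ x ∧ b ≤ z := by
    by_contra hcon
    apply hq
    have hcon' : x < b ∨ z < b := by omega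
    rcases hcon' with hx | hz
    · rw [TR_left (fun x z hx => hy'1 x z (Or.inl hx)) n x z hx,
        TR_left (fun x z hx => hy1 x z (Or.inl hx)) n x z hx]
    · rw [TR_below (fun x z hx => hy'1 x z (Or.inr hx)) n x z hz,
        TR_below (fun x z hx => hy1 x z (Or.inr hx)) n x z hz]
  have h3 : n ≤ (C - 2 * b).toNat := by
    by_contra hcon
    have hn : C - 2 * b < n := by omega
    have hf : ∀ w : Conf, (∀ z, w (X, z) = false) → (∀ x z, x ≤ X → w (x, z) = true → x + z ≤ C) →
        TR w n (x, z) = false := by
      intro w hw1 hw2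
      by_contra ht
      have ht' : TR w n (x, z) = true := by simpa using ht
      have := TR_bound hw1 hw2 n x z (by omega) ht'
      omega
    exact hq ((hf y' hcol' hc').trans (hf y hcol hc1).symm)
  simp only [Set.mem_prod, Set.mem_Icc, Set.mem_Iic]
  exact ⟨⟨⟨h2.1, h1.1⟩, h2.2, h1.2⟩, h3⟩

theorem Good.isAttractor {y : Conf} (hy : Good y) : IsAttractor y := fun _ h => hy.trajFinPert h

theorem trajFinPert_symm {y y' : Conf} (h : TrajFinPert y y') : TrajFinPert y' y := by
  refine Set.Finite.subset h fun s hs => ?_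
  simp only [Set.mem_ofPred_eq] at hs ⊢
  exact fun e => hs e.symm

theorem trajFinPert_trans {y y' y'' : Conf} (h : TrajFinPert y y') (h' : TrajFinPert y' y'') :
    TrajFinPert y y'' := by
  refine Set.Finite.subset (h.union h') fun s hs => ?_
  simp only [Set.mem_ofPred_eq, Set.mem_union] at hs ⊢
  by_contra hc
  push Not at hc
  exact hs (hc.1.trans hc.2)

/-- A bunch that contains one attractor is an attractor. -/
theorem bunchIsAttractor {y : Conf} (hy : IsAttractor y) : BunchIsAttractor (bunch y) := by
  intro w hw w' hw'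
  have h1 : FinPert w y := Quotient.exact hw
  exact trajFinPert_trans (hy w' (finPert_trans (finPert_symm h1) hw'))
    (trajFinPert_symm (hy w (finPert_symm h1)))

/-- The islands: for every `k` in `A` a triangle of ones with legs `k` and corner `(4 ^ k, 0)`. -/
noncomputable def isl (A : Set ℕ) : Conf := fun s =>
  haveI := Classical.propDecidable
  decide (∃ k ∈ A, (4 : ℤ) ^ k ≤ s.1 ∧ 0 ≤ s.2 ∧ s.1 - 4 ^ k + s.2 ≤ k)

theorem isl_true {A : Set ℕ} {x z : ℤ} : isl A (x, z) = true ↔
    ∃ k ∈ A, (4 : ℤ) ^ k ≤ x ∧ 0 ≤ z ∧ x - 4 ^ k + z ≤ k := by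
  simp [isl]

theorem isl_false {A : Set ℕ} {x z : ℤ} : isl A (x, z) = false ↔
    ∀ k ∈ A, (4 : ℤ) ^ k ≤ x → 0 ≤ z → k < x - 4 ^ k + z := by
  rw [← Bool.not_eq_true, isl_true]
  push Not
  rfl

theorem lt_pow (k : ℕ) : (k : ℤ) + 1 ≤ 4 ^ k := by
  induction k with
  | zero => simp
  | succ k ih => push_cast; rw [pow_succ]; linarith

theorem pow_gap {k l : ℕ} (h : k < l) : (4 : ℤ) ^ k + k + 1 < 4 ^ l := by
  have h1 : (4 : ℤ) ^ (k + 1) ≤ 4 ^ l := pow_le_pow_right₀ (by norm_num) h
  have h2 := lt_pow k
  rw [pow_succ] at h1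
  have h3 : (0 : ℤ) < 4 ^ k := by positivity
  linarith

theorem isl_good (A : Set ℕ) : Good (isl A) := by
  refine ⟨⟨0, ?_⟩, ?_, ?_⟩
  · intro x z hxz
    rw [isl_false]
    intro k _ h1 h2
    have : (0 : ℤ) < 4 ^ k := by positivity
    omega
  · intro M
    obtain ⟨k, hk⟩ : ∃ k : ℕ, M ≤ k := ⟨M.toNat, Int.self_le_toNat M⟩
    refine ⟨4 ^ k - 1, by have := lt_pow k; omega, fun z => ?_⟩
    rw [isl_false]
    intro l _ h1 h2
    by_contra hcon
    push Not at hcon
    rcases lt_trichotomy l k with h | h | h
    · have := pow_gap h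
      omega
    · subst h; omega
    · have := pow_gap h
      omega
  · intro X
    obtain ⟨N, hN⟩ : ∃ N : ℕ, X ≤ N := ⟨X.toNat, Int.self_le_toNat X⟩
    refine ⟨2 * N, fun x z hx ht => ?_⟩
    rw [isl_true] at ht
    obtain ⟨k, _, h1, h2, h3⟩ := ht
    have h4 := lt_pow k
    omega

/-- At time `n` the island number `k` still contains its corner if `n ≤ k`. -/
theorem isl_persist {A : Set ℕ} {k : ℕ} (hk : k ∈ A) (n : ℕ) : ∀ x z : ℤ, (4 : ℤ) ^ k ≤ x →
    0 ≤ z → x - 4 ^ k + z + n ≤ k → TR (isl A) n (x, z) = true := by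
  induction n with
  | zero =>
    intro x z h1 h2 h3
    change isl A (x, z) = true
    rw [isl_true]
    exact ⟨k, hk, h1, h2, by simpa using h3⟩
  | succ n ih =>
    intro x z h1 h2 h3
    push_cast at h3
    change maj _ _ _ = true
    rw [ih x z h1 h2 (by omega), ih (x + 1) z (by omega) h2 (by omega)]
    rfl

theorem isl_ones {A : Set ℕ} (hA : A.Infinite) (n : ℕ) : {s | TR (isl A) n s = true}.Infinite := by
  have h1 : (A \ Set.Iio n).Infinite := hA.sdiff (Set.finite_Iio n)
  refine Set.infinite_of_injOn_mapsTo (f := fun k : ℕ => (((4 : ℤ) ^ k, (0 : ℤ)) : ℤ × ℤ)) ?_ ?_ h1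
  · intro k _ l _ hkl
    simp only [Prod.mk.injEq, and_true] at hkl
    exact_mod_cast (pow_right_injective₀ (by norm_num : (0 : ℤ) < 4) (by norm_num)) hkl
  · intro k hk
    refine isl_persist hk.1 n _ _ le_rfl le_rfl ?_
    have : n ≤ k := by simpa using hk.2
    omega

theorem isl_zeros (A : Set ℕ) (n : ℕ) : {s | TR (isl A) n s = false}.Infinite := by
  refine Set.infinite_of_injective_forall_mem (f := fun k : ℕ => (((-1 - k : ℤ), (0 : ℤ)) : ℤ × ℤ))
    ?_ ?_
  · intro k l hkl
    simp only [Prod.mk.injEq, and_true] at hkl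
    omega
  · intro k
    refine TR_left (a := 0) (fun x z hx => ?_) n _ _ (by omega)
    rw [isl_false]
    intro k _ h1 h2
    have : (0 : ℤ) < 4 ^ k := by positivity
    omega

theorem isl_ne {A B : Set ℕ} {k : ℕ} (hk : k ∈ A) (hkB : k ∉ B) :
    isl A ((4 : ℤ) ^ k, 0) ≠ isl B ((4 : ℤ) ^ k, 0) := by
  have h1 : isl A ((4 : ℤ) ^ k, 0) = true := by
    rw [isl_true]
    exact ⟨k, hk, le_rfl, le_rfl, by simp⟩
  have h2 : isl B ((4 : ℤ) ^ k, 0) = false := by
    rw [isl_false]
    intro l hl h3 _
    rcases lt_trichotomy l k with h | h | h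
    · have := pow_gap h
      omega
    · subst h; exact absurd hl hkB
    · have := pow_gap h
      omega
  rw [h1, h2]
  decide

/-- Infinitely many copies of every element. -/
def copies (A : Set ℕ) : Set ℕ := {k | (Nat.unpair k).1 ∈ A}

theorem copies_infinite {a : ℕ} : {k : ℕ | (Nat.unpair k).1 = a}.Infinite := by
  refine Set.infinite_of_injective_forall_mem (f := fun n : ℕ => Nat.pair a n) ?_ ?_
  · intro m n h
    simpa using (Nat.pair_eq_pair.1 h).2
  · intro n
    simp

theorem not_finPert {A B : Set ℕ} {a : ℕ} (ha : a ∈ A) (haB : a ∉ B) :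
    ¬ FinPert (isl (copies A)) (isl (copies B)) := by
  intro h
  refine (Set.infinite_of_injOn_mapsTo (f := fun k : ℕ => (((4 : ℤ) ^ k, (0 : ℤ)) : ℤ × ℤ)) ?_ ?_
    (copies_infinite (a := a))) h
  · intro k _ l _ hkl
    simp only [Prod.mk.injEq, and_true] at hkl
    exact_mod_cast (pow_right_injective₀ (by norm_num : (0 : ℤ) < 4) (by norm_num)) hkl
  · intro k hk
    have hk' : (Nat.unpair k).1 = a := hk
    exact isl_ne (show k ∈ copies A by unfold copies; simpa [hk'] using ha)
      (show k ∉ copies B by unfold copies; simpa [hk'] using haB)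

theorem not_finPert' {A B : Set ℕ} (h : A ≠ B) : ¬ FinPert (isl (copies A)) (isl (copies B)) := by
  rcases not_or.1 (fun h' : A ⊆ B ∧ B ⊆ A ∨ False => h (h'.elim (fun h => h.1.antisymm h.2)
    False.elim)) with ⟨h1, -⟩
  rw [not_and_or, Set.not_subset, Set.not_subset] at h1
  rcases h1 with ⟨a, ha, hb⟩ | ⟨a, ha, hb⟩
  · exact not_finPert ha hb
  · exact fun hf => not_finPert ha hb (finPert_symm hf)

/-- There is an attractor whose trajectory has infinitely many ones and infinitely many zeroes at
every time. -/
theorem exists_attractor : ∃ y : Conf, IsAttractor y ∧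
    ∀ n, {s | TR y n s = true}.Infinite ∧ {s | TR y n s = false}.Infinite :=
  ⟨isl Set.univ, (isl_good _).isAttractor, fun n => ⟨isl_ones Set.infinite_univ n, isl_zeros _ n⟩⟩

/-- **Attractors of deterministic NEC-voting outside the two constant bunches.** There are continuum
many bunches that are attractors and all of whose elements `y` have infinitely many ones and
infinitely many zeroes in the trajectory at every time (in particular in `y` itself, at time `n = 0`).
All of them are outside the bunches of `all zeroes` and of `all ones`. -/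
theorem result :
    Cardinal.mk {B : Bunch // BunchIsAttractor B ∧ ∀ y : Conf, bunch y = B →
      ∀ n, {s | TR y n s = true}.Infinite ∧ {s | TR y n s = false}.Infinite} =
        Cardinal.continuum := by
  apply le_antisymm
  · refine (Cardinal.mk_subtype_le _).trans ((Cardinal.mk_quotient_le (s := finSetoid)).trans ?_)
    rw [← Cardinal.power_def]
    simp
  · have hinf : ∀ A : Set ℕ, A.Nonempty → (copies A).Infinite := by
      rintro A ⟨a, ha⟩
      refine (copies_infinite (a := a)).mono fun k hk => ?_
      have hk' : (Nat.unpair k).1 = a := hk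
      unfold copies
      simpa [hk'] using ha
    have hbunch : ∀ A : Set ℕ, A.Nonempty → BunchIsAttractor (bunch (isl (copies A))) ∧
        ∀ y : Conf, bunch y = bunch (isl (copies A)) →
          ∀ n, {s | TR y n s = true}.Infinite ∧ {s | TR y n s = false}.Infinite := by
      intro A hA
      refine ⟨bunchIsAttractor (isl_good _).isAttractor, fun y hy n => ?_⟩
      have h1 : FinPert y (isl (copies A)) := Quotient.exact hy
      have h2 := (isl_good (copies A)).isAttractor y (finPert_symm h1)
      have h3 : {s | TR y n s ≠ TR (isl (copies A)) n s}.Finite := by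
        refine Set.Finite.subset (Set.Finite.image Prod.fst h2) fun s hs => ⟨(s, n), hs, rfl⟩
      constructor
      · intro hf
        refine isl_ones (hinf A hA) n (Set.Finite.subset (hf.union h3) fun s hs => ?_)
        simp only [Set.mem_union, Set.mem_ofPred_eq] at hs ⊢
        by_cases he : TR y n s = true
        · exact Or.inl he
        · exact Or.inr (fun e => he (e.trans hs))
      · intro hf
        refine isl_zeros (copies A) n (Set.Finite.subset (hf.union h3) fun s hs => ?_)
        simp only [Set.mem_union, Set.mem_ofPred_eq] at hs ⊢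
        by_cases he : TR y n s = false
        · exact Or.inl he
        · exact Or.inr (fun e => he (e.trans hs))
    have hshift : ∀ A : Set ℕ, (insert 0 (Nat.succ '' A)).Nonempty := fun A =>
      ⟨0, Set.mem_insert _ _⟩
    have hinj : Function.Injective (fun A : Set ℕ => (⟨bunch (isl (copies (insert 0
        (Nat.succ '' A)))), hbunch _ (hshift A)⟩ : {B : Bunch // BunchIsAttractor B ∧
          ∀ y : Conf, bunch y = B →
            ∀ n, {s | TR y n s = true}.Infinite ∧ {s | TR y n s = false}.Infinite})) := by
      intro A B hAB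
      by_contra hne
      have h1 : bunch (isl (copies (insert 0 (Nat.succ '' A)))) =
          bunch (isl (copies (insert 0 (Nat.succ '' B)))) := congrArg Subtype.val hAB
      refine not_finPert' ?_ (Quotient.exact h1)
      intro he
      apply hne
      ext k
      have := Set.ext_iff.1 he (k + 1)
      simpa using this
    have := Cardinal.mk_le_of_injective hinj
    rwa [Cardinal.mk_set, Cardinal.mk_nat, Cardinal.two_power_aleph0] at this

end Pool.Agent.Results.MP_484523_pr.Islands
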